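import Pool.Agent.Helper99.SI.StD

/-!
# Module D2 of project SI (MP_181f94_al)
-/

set_option autoImplicit false

namespace Pool.Agent.Helper82.SI

open Pool.Agent.Helper99.SI

theorem hD2 (h1 : StA1) (h2 : StA3) (_h3 : StA4) : StD2 := by
  intro n L _ _ _ _ _ D y
  obtain ⟨happ, hsw, -, hinc, -⟩ := h1 n L D
  obtain ⟨-, hcf, -, hemb⟩ := h2 n L D
  have hcfw : ∀ κ : W n, D.cf (D.w κ) = Finsupp.single κ 1 := by
    intro κ
    have h := hcf (Finsupp.single κ 1)
    have e : D.emb (Finsupp.single κ 1) = D.w κ := by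
      simp [Sys.emb]
    rwa [e] at h
  have hwS : ∀ κ : W n, D.w κ ∈ D.S := fun κ => Submodule.subset_span ⟨κ, rfl⟩
  have hy := D.span y
  induction hy using Submodule.span_induction with
  | mem y hy =>
    obtain ⟨⟨α, β⟩, rfl⟩ := hy
    have hval : ∀ ν : W n, β.length ≤ ν.length → D.w α * star (D.w β) * D.w ν ≠ 0 →
        ∃ ν' : W n, ν = β ++ ν' ∧ D.w α * star (D.w β) * D.w ν = D.w (α ++ ν') := by
      intro ν hν hne
      by_cases hb : β <+: ν
      · obtain ⟨ν', rfl⟩ := hb
        exact ⟨ν', rfl, by rw [mul_assoc, hsw, ← happ]⟩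
      · exfalso
        apply hne
        have hb2 : ¬ ν <+: β := by
          intro h
          have hl := h.length_le
          have hh := h.eq_of_length (by omega)
          exact hb ⟨[], by rw [List.append_nil, hh]⟩
        rw [mul_assoc, hinc β ν hb hb2, mul_zero]
    refine ⟨β.length, 1, 1, zero_le_one, ?_, ?_⟩
    · intro ν hν
      change D.w α * star (D.w β) * D.w ν ∈ D.S ∧
        (D.cf (D.w α * star (D.w β) * D.w ν)).support.card ≤ 1 ∧
        ∀ μ, ‖D.cf (D.w α * star (D.w β) * D.w ν) μ‖ ≤ 1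
      by_cases h0 : D.w α * star (D.w β) * D.w ν = 0
      · rw [h0, map_zero]
        exact ⟨Submodule.zero_mem _, by simp, by simp⟩
      · obtain ⟨ν', -, e⟩ := hval ν hν h0
        rw [e, hcfw]
        refine ⟨hwS _, ?_, ?_⟩
        · exact (Finset.card_le_card Finsupp.support_single_subset).trans (by simp)
        · intro μ
          rw [Finsupp.single_apply]
          split_ifs <;> simp
    · intro μ
      have hsub : {ν : W n | β.length ≤ ν.length ∧
          D.cf (wd D.x α * star (wd D.x β) * D.w ν) μ ≠ 0} ⊆ {β ++ μ.drop α.length} := by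
        rintro ν ⟨hν, hne⟩
        change D.cf (D.w α * star (D.w β) * D.w ν) μ ≠ 0 at hne
        have h0 : D.w α * star (D.w β) * D.w ν ≠ 0 := by
          intro h
          rw [h, map_zero] at hne
          exact hne rfl
        obtain ⟨ν', e1, e⟩ := hval ν hν h0
        rw [e, hcfw, Finsupp.single_apply] at hne
        have hμ : α ++ ν' = μ := by
          by_contra hh
          rw [if_neg hh] at hne
          exact hne rfl
        rw [Set.mem_singleton_iff, ← hμ, List.drop_left, e1]
      refine ⟨(Set.finite_singleton _).subset hsub, ?_⟩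
      exact (Set.ncard_le_ncard hsub).trans (by simp)
  | zero =>
    refine ⟨0, 0, 0, le_refl _, ?_, ?_⟩
    · intro ν _
      rw [zero_mul, map_zero]
      exact ⟨Submodule.zero_mem _, by simp, by simp⟩
    · intro μ
      have : {ν : W n | 0 ≤ ν.length ∧ D.cf (0 * D.w ν) μ ≠ 0} = ∅ := by
        ext ν
        simp
      rw [this]
      simp
  | add y z _ _ hy hz =>
    obtain ⟨l1, K1, C1, hC1, hy1, hy2⟩ := hy
    obtain ⟨l2, K2, C2, hC2, hz1, hz2⟩ := hz
    refine ⟨max l1 l2, K1 + K2, C1 + C2, by positivity, ?_, ?_⟩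
    · intro ν hν
      obtain ⟨a1, a2, a3⟩ := hy1 ν ((le_max_left _ _).trans hν)
      obtain ⟨b1, b2, b3⟩ := hz1 ν ((le_max_right _ _).trans hν)
      rw [add_mul, map_add]
      refine ⟨Submodule.add_mem _ a1 b1, ?_, ?_⟩
      · classical
        refine (Finset.card_le_card Finsupp.support_add).trans ?_
        refine (Finset.card_union_le _ _).trans ?_
        omega
      · intro μ
        rw [Finsupp.add_apply]
        exact (norm_add_le _ _).trans (add_le_add (a3 μ) (b3 μ))
    · intro μ
      have hsub : {ν : W n | max l1 l2 ≤ ν.length ∧ D.cf ((y + z) * D.w ν) μ ≠ 0} ⊆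
          {ν : W n | l1 ≤ ν.length ∧ D.cf (y * D.w ν) μ ≠ 0} ∪
          {ν : W n | l2 ≤ ν.length ∧ D.cf (z * D.w ν) μ ≠ 0} := by
        rintro ν ⟨hν, hne⟩
        rw [add_mul, map_add, Finsupp.add_apply] at hne
        by_cases h : D.cf (y * D.w ν) μ = 0
        · right
          rw [h, zero_add] at hne
          exact ⟨(le_max_right _ _).trans hν, hne⟩
        · left
          exact ⟨(le_max_left _ _).trans hν, h⟩
      have hfin := (hy2 μ).1.union (hz2 μ).1
      refine ⟨hfin.subset hsub, ?_⟩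
      refine (Set.ncard_le_ncard hsub hfin).trans ((Set.ncard_union_le _ _).trans ?_)
      exact add_le_add (hy2 μ).2 (hz2 μ).2
  | smul a y _ hy =>
    obtain ⟨l1, K1, C1, hC1, hy1, hy2⟩ := hy
    refine ⟨l1, K1, ‖a‖ * C1, by positivity, ?_, ?_⟩
    · intro ν hν
      obtain ⟨a1, a2, a3⟩ := hy1 ν hν
      rw [smul_mul_assoc, map_smul]
      refine ⟨Submodule.smul_mem _ _ a1, ?_, ?_⟩
      · exact (Finset.card_le_card Finsupp.support_smul).trans a2
      · intro μ
        rw [Finsupp.smul_apply, smul_eq_mul, norm_mul]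
        exact mul_le_mul_of_nonneg_left (a3 μ) (norm_nonneg _)
    · intro μ
      have hsub : {ν : W n | l1 ≤ ν.length ∧ D.cf ((a • y) * D.w ν) μ ≠ 0} ⊆
          {ν : W n | l1 ≤ ν.length ∧ D.cf (y * D.w ν) μ ≠ 0} := by
        rintro ν ⟨hν, hne⟩
        rw [smul_mul_assoc, map_smul, Finsupp.smul_apply, smul_eq_mul] at hne
        exact ⟨hν, right_ne_zero_of_mul hne⟩
      exact ⟨(hy2 μ).1.subset hsub, (Set.ncard_le_ncard hsub (hy2 μ).1).trans (hy2 μ).2⟩

end Pool.Agent.Helper82.SI
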