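import Pool.Agent.Helper99.SI.StD

/-!
# Module D4 of project SI (MP_181f94_al)
-/

set_option autoImplicit false

namespace Pool.Agent.Helper82.SI

open Pool.Agent.Helper99.SI

/-- Lipschitz bound of the integer powers on an interval. -/
lemma zpow_lip (j : ℤ) (c : ℝ) (hc : 0 < c) :
    ∃ C : ℝ, 0 ≤ C ∧ ∀ t : ℝ, c ≤ t → t ≤ 1 → ‖(t : ℂ) ^ j - 1‖ ≤ C * (1 - t) := by
  have key : ∀ (m : ℕ) (t : ℝ), 0 ≤ t → t ≤ 1 → 1 - t ^ m ≤ m * (1 - t) := by
    intro m t h0 h1
    have h := one_add_mul_le_pow (a := t - 1) (by linarith) m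
    have e : 1 + (t - 1) = t := by ring
    rw [e] at h
    nlinarith
  obtain ⟨m, rfl | rfl⟩ := j.eq_nat_or_neg
  · refine ⟨m, Nat.cast_nonneg m, fun t h0 h1 => ?_⟩
    have ht : 0 ≤ t := hc.le.trans h0
    have e : (t : ℂ) ^ (m : ℤ) - 1 = ((t ^ m - 1 : ℝ) : ℂ) := by
      push_cast
      rw [zpow_natCast]
    rw [e, Complex.norm_real, Real.norm_eq_abs, abs_sub_comm,
      abs_of_nonneg (sub_nonneg.2 (pow_le_one₀ ht h1))]
    exact key m t ht h1
  · refine ⟨m / c ^ m, by positivity, fun t h0 h1 => ?_⟩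
    have ht : 0 < t := hc.trans_le h0
    have e : (t : ℂ) ^ (-(m : ℤ)) - 1 = (((1 - t ^ m) / t ^ m : ℝ) : ℂ) := by
      have hne : (t : ℂ) ≠ 0 := Complex.ofReal_ne_zero.2 ht.ne'
      push_cast
      rw [zpow_neg, zpow_natCast]
      field_simp
    have h2 : 0 ≤ 1 - t ^ m := sub_nonneg.2 (pow_le_one₀ ht.le h1)
    rw [e, Complex.norm_real, Real.norm_eq_abs, abs_of_nonneg (div_nonneg h2 (by positivity))]
    have h3 := key m t ht.le h1
    have h4 : c ^ m ≤ t ^ m := pow_le_pow_left₀ hc.le h0 m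
    calc (1 - t ^ m) / t ^ m ≤ (m * (1 - t)) / c ^ m :=
          div_le_div₀ (h2.trans h3) h3 (by positivity) h4
      _ = m / c ^ m * (1 - t) := by ring

section

variable {n : ℕ} {L : Type} [Ring L] [Algebra ℂ L] [StarRing L]

/-- The columns on the words of length at least M4. -/
noncomputable def d4f (D : Sys n L) (M4 : ℕ) (y : L) (ν : W n) : W n →₀ ℂ :=
  if M4 ≤ ν.length then D.cf (y * D.w ν) else 0

lemma d4f_sum (D : Sys n L) (M4 : ℕ) (Z : Finset ℤ) (c : ℤ → ℂ) (y : ℤ → L) (ν μ : W n) :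
    d4f D M4 (∑ j ∈ Z, c j • y j) ν μ = ∑ j ∈ Z, c j * d4f D M4 (y j) ν μ := by
  unfold d4f
  split_ifs
  · rw [Finset.sum_mul, map_sum, Finsupp.finsetSum_apply]
    refine Finset.sum_congr rfl fun j _ => ?_
    rw [smul_mul_assoc, map_smul, Finsupp.smul_apply, smul_eq_mul]
  · simp

/-- The matrix with its two blocks. -/
noncomputable def d4a (D : Sys n L) (r M4 : ℕ) (y : L) : Idx n r → (Idx n r →₀ ℂ)
  | Sum.inl (Sum.inl ν) => (d4f D M4 y ν).mapDomain fun μ => Sum.inl (Sum.inl μ)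
  | Sum.inl (Sum.inr ν) => ((d4f D M4 y ν).mapRange star (star_zero ℂ)).mapDomain
      fun μ => Sum.inl (Sum.inr μ)
  | Sum.inr _ => 0

/-- The entries of the matrix. -/
noncomputable def d4v (D : Sys n L) (r M4 : ℕ) (y : L) : Idx n r → Idx n r → ℂ
  | Sum.inl (Sum.inl ν), Sum.inl (Sum.inl μ) => d4f D M4 y ν μ
  | Sum.inl (Sum.inr ν), Sum.inl (Sum.inr μ) => star (d4f D M4 y ν μ)
  | Sum.inl (Sum.inl _), Sum.inl (Sum.inr _) => 0
  | Sum.inl (Sum.inr _), Sum.inl (Sum.inl _) => 0
  | Sum.inl _, Sum.inr _ => 0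
  | Sum.inr _, _ => 0

lemma inj1 (n r : ℕ) : Function.Injective fun μ : W n => (Sum.inl (Sum.inl μ) : Idx n r) :=
  fun _ _ h => Sum.inl_injective (Sum.inl_injective h)

lemma inj2 (n r : ℕ) : Function.Injective fun μ : W n => (Sum.inl (Sum.inr μ) : Idx n r) :=
  fun _ _ h => Sum.inr_injective (Sum.inl_injective h)

lemma d4a_apply (D : Sys n L) (r M4 : ℕ) (y : L) (i k : Idx n r) :
    d4a D r M4 y i k = d4v D r M4 y i k := by
  rcases i with (ν | ν) | a
  · rcases k with (μ | μ) | b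
    · exact Finsupp.mapDomain_apply (inj1 n r) _ μ
    · exact Finsupp.mapDomain_of_notMem_range _ _ (by simp)
    · exact Finsupp.mapDomain_of_notMem_range _ _ (by simp)
  · rcases k with (μ | μ) | b
    · exact Finsupp.mapDomain_of_notMem_range _ _ (by simp)
    · exact Finsupp.mapDomain_apply (inj2 n r) _ μ
    · exact Finsupp.mapDomain_of_notMem_range _ _ (by simp)
  · rfl

lemma kcol_eq (D : Sys n L) (r M4 : ℕ) (t : ℝ) (κ : W n) (i : Idx n r) :
    D.kcol r M4 t κ i = d4a D r M4 (star (D.b.ev (t : ℂ) (D.w κ))) i := by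
  rcases i with (ν | ν) | a
  · change (if M4 ≤ ν.length then _ else 0) = Finsupp.mapDomain _ (d4f D M4 _ ν)
    unfold d4f
    split_ifs
    · rfl
    · rw [Finsupp.mapDomain_zero]
  · change (if M4 ≤ ν.length then _ else 0) = Finsupp.mapDomain _ (Finsupp.mapRange _ _ (d4f D M4 _ ν))
    unfold d4f
    split_ifs
    · rfl
    · rw [Finsupp.mapRange_zero, Finsupp.mapDomain_zero]
  · rfl

lemma d4v_sum (D : Sys n L) (r M4 : ℕ) (Z : Finset ℤ) (c : ℤ → ℂ) (hc : ∀ j, star (c j) = c j)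
    (y : ℤ → L) (i k : Idx n r) :
    d4v D r M4 (∑ j ∈ Z, c j • y j) i k = ∑ j ∈ Z, c j * d4v D r M4 (y j) i k := by
  rcases i with (ν | ν) | a
  · rcases k with (μ | μ) | b
    · exact d4f_sum D M4 Z c y ν μ
    · exact (Finset.sum_eq_zero fun j _ => mul_zero _).symm
    · exact (Finset.sum_eq_zero fun j _ => mul_zero _).symm
  · rcases k with (μ | μ) | b
    · exact (Finset.sum_eq_zero fun j _ => mul_zero _).symm
    · change star (d4f D M4 _ ν μ) = ∑ j ∈ Z, c j * star (d4f D M4 (y j) ν μ)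
      rw [d4f_sum, star_sum]
      refine Finset.sum_congr rfl fun j _ => ?_
      rw [star_mul', hc]
    · exact (Finset.sum_eq_zero fun j _ => mul_zero _).symm
  · exact (Finset.sum_eq_zero fun j _ => mul_zero _).symm

lemma star_ev [StarModule ℂ L] (B : ZGr L) (t : ℝ) (y : L) :
    star (B.ev (t : ℂ) y) = ∑ j ∈ (B.fin y).toFinset, (t : ℂ) ^ j • star (B.p j y) := by
  have e : B.ev (t : ℂ) y = ∑ j ∈ (B.fin y).toFinset, (t : ℂ) ^ j • B.p j y := by
    change ∑ᶠ j : ℤ, (t : ℂ) ^ j • B.p j y = _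
    refine finsum_eq_sum_of_support_subset _ ?_
    intro j hj
    rw [Set.Finite.coe_toFinset]
    intro h
    apply hj
    change (t : ℂ) ^ j • B.p j y = 0
    rw [h, smul_zero]
  rw [e, star_sum]
  refine Finset.sum_congr rfl fun j _ => ?_
  rw [star_smul, star_zpow₀, Complex.star_def, Complex.conj_ofReal]

end

/-- Uniform bounds for the columns. -/
lemma d4_bounds (h5 : StD2) {n : ℕ} {L : Type} [Ring L] [Algebra ℂ L] [StarRing L]
    [StarModule ℂ L] [Nontrivial L] (D : Sys n L) (M4 : ℕ) (y : L) :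
    ∃ (K : ℕ) (C : ℝ), 0 ≤ C ∧ (∀ ν, (d4f D M4 y ν).support.card ≤ K) ∧
      (∀ ν μ, ‖d4f D M4 y ν μ‖ ≤ C) ∧
      ∀ μ, {ν | d4f D M4 y ν μ ≠ 0}.Finite ∧ {ν | d4f D M4 y ν μ ≠ 0}.ncard ≤ K := by
  classical
  obtain ⟨l, K, C, hC, h1, h2⟩ := h5 n L D y
  set F : Finset (W n) := (List.finite_length_lt (Fin n) l).toFinset with hF
  have hFm : ∀ ν : W n, ν ∈ F ↔ ν.length < l := by
    intro ν
    rw [hF, Set.Finite.mem_toFinset]
    rfl
  set K1 : ℕ := ∑ ν ∈ F, (D.cf (y * D.w ν)).support.card with hK1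
  set C1 : ℝ := ∑ ν ∈ F, ∑ μ ∈ (D.cf (y * D.w ν)).support, ‖D.cf (y * D.w ν) μ‖ with hC1
  have hC1n : 0 ≤ C1 := Finset.sum_nonneg fun ν _ => Finset.sum_nonneg fun μ _ => norm_nonneg _
  refine ⟨K + F.card + K1, C + C1, by positivity, ?_, ?_, ?_⟩
  · intro ν
    unfold d4f
    split_ifs
    · by_cases hl : l ≤ ν.length
      · exact (h1 ν hl).2.1.trans (by omega)
      · have hν : ν ∈ F := (hFm ν).2 (not_le.1 hl)
        have := Finset.single_le_sum (f := fun ν => (D.cf (y * D.w ν)).support.card)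
          (fun _ _ => Nat.zero_le _) hν
        omega
    · simp
  · intro ν μ
    unfold d4f
    split_ifs
    · by_cases hl : l ≤ ν.length
      · exact ((h1 ν hl).2.2 μ).trans (by linarith)
      · have hν : ν ∈ F := (hFm ν).2 (not_le.1 hl)
        have h3 := Finset.single_le_sum
          (f := fun ν => ∑ μ ∈ (D.cf (y * D.w ν)).support, ‖D.cf (y * D.w ν) μ‖)
          (fun ν _ => Finset.sum_nonneg fun μ _ => norm_nonneg _) hν
        by_cases hμ : μ ∈ (D.cf (y * D.w ν)).support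
        · have h4 := Finset.single_le_sum (f := fun μ => ‖D.cf (y * D.w ν) μ‖)
            (fun μ _ => norm_nonneg _) hμ
          linarith
        · rw [Finsupp.notMem_support_iff.1 hμ, norm_zero]
          positivity
    · rw [Finsupp.zero_apply, norm_zero]
      positivity
  · intro μ
    have hsub : {ν | d4f D M4 y ν μ ≠ 0} ⊆
        {ν : W n | l ≤ ν.length ∧ D.cf (y * D.w ν) μ ≠ 0} ∪ (F : Set (W n)) := by
      intro ν hν
      have hne : D.cf (y * D.w ν) μ ≠ 0 := by
        intro h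
        apply hν
        unfold d4f
        split_ifs
        · exact h
        · rfl
      by_cases hl : l ≤ ν.length
      · exact Or.inl ⟨hl, hne⟩
      · exact Or.inr (Finset.mem_coe.2 ((hFm ν).2 (not_le.1 hl)))
    have hfin := (h2 μ).1.union F.finite_toSet
    refine ⟨hfin.subset hsub, ?_⟩
    refine (Set.ncard_le_ncard hsub hfin).trans ((Set.ncard_union_le _ _).trans ?_)
    rw [Set.ncard_coe_finset]
    have := (h2 μ).2
    omega

/-- The operators with the matrices d4a. -/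
lemma d4_op (h4 : StD1) (h5 : StD2) {n : ℕ} {L : Type} [Ring L] [Algebra ℂ L] [StarRing L]
    [StarModule ℂ L] [Nontrivial L] (D : Sys n L) (r M4 : ℕ) (y : L) :
    (∀ k, {i | d4a D r M4 y i k ≠ 0}.Finite) ∧
      ∃ T : L2 (Idx n r) →L[ℂ] L2 (Idx n r), IsOp T (d4a D r M4 y) := by
  classical
  obtain ⟨K, C, hC, hcard, hnorm, hrow⟩ := d4_bounds h5 D M4 y
  have hrows : ∀ k, {i | d4a D r M4 y i k ≠ 0}.Finite ∧ {i | d4a D r M4 y i k ≠ 0}.ncard ≤ K := by
    intro k
    rcases k with (μ | μ) | b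
    · have hsub : {i | d4a D r M4 y i (Sum.inl (Sum.inl μ)) ≠ 0} ⊆
          (fun ν : W n => (Sum.inl (Sum.inl ν) : Idx n r)) '' {ν | d4f D M4 y ν μ ≠ 0} := by
        intro i hi
        rw [Set.mem_ofPred_eq, d4a_apply] at hi
        rcases i with (ν | ν) | a
        · exact ⟨ν, hi, rfl⟩
        · exact absurd rfl hi
        · exact absurd rfl hi
      have hfin := (hrow μ).1.image (fun ν : W n => (Sum.inl (Sum.inl ν) : Idx n r))
      exact ⟨hfin.subset hsub, (Set.ncard_le_ncard hsub hfin).trans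
        ((Set.ncard_image_le (hrow μ).1).trans (hrow μ).2)⟩
    · have hsub : {i | d4a D r M4 y i (Sum.inl (Sum.inr μ)) ≠ 0} ⊆
          (fun ν : W n => (Sum.inl (Sum.inr ν) : Idx n r)) '' {ν | d4f D M4 y ν μ ≠ 0} := by
        intro i hi
        rw [Set.mem_ofPred_eq, d4a_apply] at hi
        rcases i with (ν | ν) | a
        · exact absurd rfl hi
        · refine ⟨ν, ?_, rfl⟩
          intro h
          apply hi
          change star (d4f D M4 y ν μ) = 0
          rw [h, star_zero]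
        · exact absurd rfl hi
      have hfin := (hrow μ).1.image (fun ν : W n => (Sum.inl (Sum.inr ν) : Idx n r))
      exact ⟨hfin.subset hsub, (Set.ncard_le_ncard hsub hfin).trans
        ((Set.ncard_image_le (hrow μ).1).trans (hrow μ).2)⟩
    · have he : {i | d4a D r M4 y i (Sum.inr b) ≠ 0} = ∅ := by
        ext i
        rw [Set.mem_ofPred_eq, d4a_apply]
        rcases i with (ν | ν) | a
        · exact ⟨fun h => h rfl, fun h => h.elim⟩
        · exact ⟨fun h => h rfl, fun h => h.elim⟩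
        · exact ⟨fun h => h rfl, fun h => h.elim⟩
      rw [he]
      exact ⟨Set.finite_empty, by simp⟩
  refine ⟨fun k => (hrows k).1, ?_⟩
  have hcol : ∀ i, (d4a D r M4 y i).support.card ≤ K := by
    intro i
    rcases i with (ν | ν) | a
    · exact (Finset.card_le_card Finsupp.mapDomain_support).trans
        (Finset.card_image_le.trans (hcard ν))
    · refine (Finset.card_le_card Finsupp.mapDomain_support).trans
        (Finset.card_image_le.trans ?_)
      exact (Finset.card_le_card Finsupp.support_mapRange).trans (hcard ν)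
    · change (0 : Idx n r →₀ ℂ).support.card ≤ K
      simp
  have hent : ∀ i k, ‖d4a D r M4 y i k‖ ≤ C := by
    intro i k
    rw [d4a_apply]
    rcases i with (ν | ν) | a
    · rcases k with (μ | μ) | b
      · exact hnorm ν μ
      · exact norm_zero.trans_le hC
      · exact norm_zero.trans_le hC
    · rcases k with (μ | μ) | b
      · exact norm_zero.trans_le hC
      · exact (norm_star _).trans_le (hnorm ν μ)
      · exact norm_zero.trans_le hC
    · exact norm_zero.trans_le hC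
  obtain ⟨T, hT, -⟩ := h4 (Idx n r) (Idx n r) (d4a D r M4 y) K C hC hcol hrows hent
  exact ⟨T, hT⟩

theorem hD4 (_h1 : StA0) (_h2 : StA1) (_h3 : StA3) (h4 : StD1) (h5 : StD2) : StD4 := by
  intro n L _ _ _ _ _ D r n1 M4 _
  classical
  choose hfin T hT using fun y : L => d4_op h4 h5 D r M4 y
  refine ⟨fun κ t => ∑ j ∈ (D.b.fin (D.w κ)).toFinset,
    (t : ℂ) ^ j • T (star (D.b.p j (D.w κ))), fun κ _ => ⟨?_, ?_, ?_⟩⟩
  · refine continuousOn_finsetSum _ fun j _ => ?_
    have hz : ContinuousOn (fun t : ℝ => (t : ℂ) ^ j) (Set.Ioi 0) :=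
      ContinuousOn.zpow₀ Complex.continuous_ofReal.continuousOn j
        fun t ht => Or.inl (Complex.ofReal_ne_zero.2 (ne_of_gt ht))
    exact hz.smul continuousOn_const
  · intro t _ z k
    set Z := (D.b.fin (D.w κ)).toFinset with hZ
    have hsum : (∑ j ∈ Z, (t : ℂ) ^ j • T (star (D.b.p j (D.w κ)))) z k =
        ∑ j ∈ Z, (t : ℂ) ^ j * T (star (D.b.p j (D.w κ))) z k := by
      rw [sum_apply, lp.coeFn_sum, Finset.sum_apply]
      refine Finset.sum_congr rfl fun j _ => ?_
      rw [smul_apply, lp.coeFn_smul, Pi.smul_apply, smul_eq_mul]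
    rw [hsum]
    set A : Finset (Idx n r) := Z.biUnion fun j => (hfin (star (D.b.p j (D.w κ))) k).toFinset
      with hA
    have hA1 : ∀ j ∈ Z, ∀ i, d4a D r M4 (star (D.b.p j (D.w κ))) i k ≠ 0 → i ∈ A := by
      intro j hj i hi
      rw [hA, Finset.mem_biUnion]
      exact ⟨j, hj, by rw [Set.Finite.mem_toFinset]; exact hi⟩
    have hk : ∀ i, D.kcol r M4 t κ i k =
        ∑ j ∈ Z, (t : ℂ) ^ j * d4a D r M4 (star (D.b.p j (D.w κ))) i k := by
      intro i
      rw [kcol_eq, d4a_apply, star_ev, d4v_sum]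
      · refine Finset.sum_congr rfl fun j _ => ?_
        rw [d4a_apply]
      · intro j
        rw [star_zpow₀, Complex.star_def, Complex.conj_ofReal]
    have e1 : ∀ j ∈ Z, T (star (D.b.p j (D.w κ))) z k =
        ∑ i ∈ A, d4a D r M4 (star (D.b.p j (D.w κ))) i k * z i := by
      intro j hj
      rw [hT (star (D.b.p j (D.w κ))) z k]
      refine finsum_eq_sum_of_support_subset _ ?_
      intro i hi
      exact Finset.mem_coe.2 (hA1 j hj i (left_ne_zero_of_mul hi))
    have e2 : ∑ᶠ i : Idx n r, D.kcol r M4 t κ i k * z i =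
        ∑ i ∈ A, D.kcol r M4 t κ i k * z i := by
      refine finsum_eq_sum_of_support_subset _ ?_
      intro i hi
      rw [Finset.mem_coe]
      by_contra hiA
      apply left_ne_zero_of_mul hi
      rw [hk]
      refine Finset.sum_eq_zero fun j hj => ?_
      by_contra h
      exact hiA (hA1 j hj i (right_ne_zero_of_mul h))
    rw [e2, Finset.sum_congr rfl fun j hj => by rw [e1 j hj, Finset.mul_sum], Finset.sum_comm]
    refine Finset.sum_congr rfl fun i _ => ?_
    rw [hk, Finset.sum_mul]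
    refine Finset.sum_congr rfl fun j _ => ?_
    rw [mul_assoc]
  · intro c hc
    choose C hC0 hC using fun j : ℤ => zpow_lip j c hc
    refine ⟨∑ j ∈ (D.b.fin (D.w κ)).toFinset, C j * ‖T (star (D.b.p j (D.w κ)))‖, ?_⟩
    intro t h0 h1
    rw [← Finset.sum_sub_distrib, Finset.sum_mul]
    refine (norm_sum_le _ _).trans (Finset.sum_le_sum fun j _ => ?_)
    rw [← sub_smul, Complex.ofReal_one, one_zpow]
    refine (norm_smul_le _ _).trans ?_
    have h2 := mul_le_mul_of_nonneg_right (hC j t h0 h1) (norm_nonneg (T (star (D.b.p j (D.w κ)))))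
    linarith

end Pool.Agent.Helper82.SI
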