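import Pool.Agent.Helper99.SI.StF

/-!
# Module F0 of project SI (MP_181f94_al)
-/

set_option autoImplicit false

namespace Pool.Agent.Helper82.SI

open Pool.Agent.Helper99.SI

lemma inner_eb {ι : Type} [DecidableEq ι] (i : ι) (z : L2 ι) : inner ℂ (eb i) z = z i := by
  rw [eb, lp.inner_single_left]
  simp

lemma eb_apply {ι : Type} [DecidableEq ι] (i j : ι) : (eb i : L2 ι) j = if i = j then 1 else 0 := by
  rw [eb, lp.single_apply, Pi.single_apply]
  split_ifs with h1 h2 h2
  · rfl
  · exact absurd h1.symm h2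
  · exact absurd h2.symm h1
  · rfl

theorem hF0 : StF0 := by
  intro n L _ _ _ _ _ D m J0 P
  have hin : ∀ (j : {i // i ∈ P.J}) (z : L2 (Idx n m.r)), inner ℂ (eJ P.J j) z = z j.1 :=
    fun j z => inner_eb j.1 z
  refine ⟨?_, hin, ?_⟩
  · rw [orthonormal_iff_ite]
    intro i j
    rw [hin]
    change (eb j.1 : L2 (Idx n m.r)) i.1 = _
    rw [eb_apply]
    split_ifs with h1 h2 h2
    · rfl
    · exact absurd (Subtype.ext h1.symm) h2
    · exact absurd (congrArg Subtype.val h2.symm) h1
    · rfl
  · rintro s u ⟨hs0, hs1, hu0, hu1, hne⟩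
    refine ⟨1 - s * u, ?_, ?_⟩
    · rcases lt_or_eq_of_le hs1 with h | h
      · nlinarith
      · have h' : u ≠ 1 := fun h2 => hne ⟨h, h2⟩
        have h3 : u < 1 := lt_of_le_of_ne hu1 h'
        change s = 1 at h
        rw [h]
        linarith
    · intro z hz
      have h := P.coer u hu0 hu1 s hs0 hs1 z (fun i hi => by
        have := hz ⟨i, hi⟩
        rwa [hin] at this)
      exact h

end Pool.Agent.Helper82.SI
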