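import Pool.Agent.Helper99.SI.StF

/-!
# Module F1 of project SI (MP_181f94_al)
-/

set_option autoImplicit false

namespace Pool.Agent.Helper82.SI

open Pool.Agent.Helper99.SI

theorem hF1 : StF1 := by
  intro n L _ _ _ _ _ D X0 m hm s t ht A _ v lam k hk hbij
  set π := m.piV D t with hπ
  set Φ := D.Phi (t : ℂ) with hΦ
  set F := m.Fl t with hF
  set T0 : L →ₗ[ℂ] L := LinearMap.id - (s : ℂ) • Φ + ∑ a, (lam a).smulRight (v a) with hT0
  set T1 : (Idx n m.r →₀ ℂ) →ₗ[ℂ] (Idx n m.r →₀ ℂ) :=
    LinearMap.id - (s : ℂ) • F + ∑ a, (lam a ∘ₗ π).smulRight (k a) with hT1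
  have e0 : ∀ y, T0 y = y - (s : ℂ) • Φ y + ∑ a, lam a y • v a := by
    intro y
    rw [hT0, LinearMap.add_apply, LinearMap.sub_apply, LinearMap.smul_apply, LinearMap.sum_apply]
    rfl
  have e1 : ∀ z, T1 z = z - (s : ℂ) • F z + ∑ a, lam a (π z) • k a := by
    intro z
    rw [hT1, LinearMap.add_apply, LinearMap.sub_apply, LinearMap.smul_apply, LinearMap.sum_apply]
    rfl
  have fpi : ∀ z, π (F z) = Φ (π z) := hm.fpi t ht
  have hT0b : Function.Bijective T0 := by
    have : (T0 : L → L) = fun y : L => y - (s : ℂ) • D.Phi (t : ℂ) y + ∑ a, lam a y • v a :=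
      funext e0
    rw [this]
    exact hbij
  have hπT : ∀ z, π (T1 z) = T0 (π z) := by
    intro z
    rw [e1, e0, map_add, map_sub, map_smul, fpi, map_sum]
    congr 1
    refine Finset.sum_congr rfl fun a _ => ?_
    rw [map_smul, hk]
  have hgoal : Function.Bijective T1 := by
    constructor
    · rw [injective_iff_map_eq_zero]
      intro z hz
      have h1 : T0 (π z) = 0 := by rw [← hπT, hz, map_zero]
      have h2 : π z = 0 := hT0b.1 (by rw [h1, map_zero])
      have h3 : z = (s : ℂ) • F z := by
        have := e1 z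
        rw [hz, h2] at this
        simp only [map_zero, zero_smul, Finset.sum_const_zero, add_zero] at this
        exact sub_eq_zero.1 this.symm
      obtain ⟨q, hq⟩ := hm.nil t ht z h2
      have h4 : ∀ q : ℕ, z = (s : ℂ) ^ q • (F ^ q) z := by
        intro q
        induction q with
        | zero => simp
        | succ q ih =>
          rw [pow_succ, pow_succ, Module.End.mul_apply, mul_smul, ← map_smul (F ^ q), ← h3]
          exact ih
      rw [h4 q, hq, smul_zero]
    · have hnil : ∀ (q : ℕ) (e : Idx n m.r →₀ ℂ), (F ^ q) e = 0 → π e = 0 → ∃ e', T1 e' = e := by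
        intro q
        induction q with
        | zero =>
          intro e he _
          exact ⟨0, by rw [map_zero]; simpa using he.symm⟩
        | succ q ih =>
          intro e he hπe
          rw [pow_succ, Module.End.mul_apply] at he
          obtain ⟨e'', he''⟩ := ih (F e) he (by rw [fpi, hπe, map_zero])
          refine ⟨e + (s : ℂ) • e'', ?_⟩
          rw [map_add, map_smul, he'', e1, hπe]
          simp
      intro z
      obtain ⟨y, hy⟩ := hT0b.2 (π z)
      rw [e0] at hy
      have hy2 : y - (s : ℂ) • Φ y = π (z - ∑ a, lam a y • k a) := by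
        rw [map_sub, ← hy, map_sum]
        have : ∑ a, π (lam a y • k a) = ∑ a, lam a y • v a := by
          refine Finset.sum_congr rfl fun a _ => ?_
          rw [map_smul, hk]
        rw [this, add_sub_cancel_right]
      have hr : ∀ q : ℕ, ∃ w, y - (s : ℂ) ^ q • (Φ ^ q) y = π w := by
        intro q
        induction q with
        | zero => exact ⟨0, by simp⟩
        | succ q ih =>
          obtain ⟨w, hw⟩ := ih
          refine ⟨(z - ∑ a, lam a y • k a) + (s : ℂ) • F w, ?_⟩
          rw [map_add, ← hy2, map_smul, fpi, ← hw, map_sub, map_smul, smul_sub, pow_succ' Φ,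
            Module.End.mul_apply, pow_succ' (s : ℂ), mul_smul]
          abel
      obtain ⟨q, z', hz'⟩ := hm.cok t ht y
      obtain ⟨w, hw⟩ := hr q
      have hy3 : y = π (w + (s : ℂ) ^ q • z') := by
        rw [map_add, ← hw, map_smul]
        change y = _ + (s : ℂ) ^ q • m.piV D t z'
        rw [← hz']
        exact (sub_add_cancel _ _).symm
      set z2 := w + (s : ℂ) ^ q • z' with hz2
      have h5 : π (z - T1 z2) = 0 := by
        rw [map_sub, hπT, ← hy3, e0, hy, sub_self]
      obtain ⟨q', hq'⟩ := hm.nil t ht _ h5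
      obtain ⟨e', he'⟩ := hnil q' _ hq' h5
      exact ⟨z2 + e', by rw [map_add, he', add_sub_cancel]⟩
  have : (T1 : (Idx n m.r →₀ ℂ) → (Idx n m.r →₀ ℂ)) = fun z : Idx n m.r →₀ ℂ =>
      z - (s : ℂ) • m.Fl t z + ∑ a, lam a (m.piV D t z) • k a := funext e1
  rw [← this]
  exact hgoal

end Pool.Agent.Helper82.SI
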