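import Pool.Agent.Helper99.SI.StK

/-!
# Module K2 of project SI (MP_181f94_al)
-/

set_option autoImplicit false

namespace Pool.Agent.Helper82.SI

open Pool.Agent.Helper99.SI

section

variable {n : ℕ} {L : Type} [Ring L] [Algebra ℂ L] [StarRing L] (D : Sys n L)

theorem tauN_add (N : ℕ) (b : W n) (y z : L) :
    D.tauN N b (y + z) = D.tauN N b y + D.tauN N b z := by
  unfold Sys.tauN
  rw [← Finset.sum_add_distrib]
  apply Finset.sum_congr rfl
  intro i _
  rw [← Finset.sum_add_distrib]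
  apply Finset.sum_congr rfl
  intro p _
  rw [add_mul, map_add, Finsupp.add_apply]

theorem tauN_smul (N : ℕ) (b : W n) (c : ℂ) (y : L) :
    D.tauN N b (c • y) = c * D.tauN N b y := by
  unfold Sys.tauN
  rw [Finset.mul_sum]
  apply Finset.sum_congr rfl
  intro i _
  rw [Finset.mul_sum]
  apply Finset.sum_congr rfl
  intro p _
  rw [smul_mul_assoc, map_smul, Finsupp.smul_apply, smul_eq_mul]

theorem tauN_zero (N : ℕ) (b : W n) : D.tauN N b 0 = 0 := by
  have := tauN_smul D N b 0 0
  rwa [zero_smul, zero_mul] at this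

theorem tau_eq (b : W n) (y : L) (c : ℂ) (h : ∃ N0 : ℕ, ∀ N ≥ N0, D.tauN N b y = c) :
    D.tau b y = c := by
  unfold Sys.tau
  have h' : ∃ c : ℂ, ∃ N0 : ℕ, ∀ N ≥ N0, D.tauN N b y = c := ⟨c, h⟩
  rw [dif_pos h']
  obtain ⟨N1, h1⟩ := h'.choose_spec
  obtain ⟨N2, h2⟩ := h
  rw [← h1 (max N1 N2) (le_max_left _ _), ← h2 (max N1 N2) (le_max_right _ _)]

theorem tau_spec (b : W n) (y : L) (h : ∃ c : ℂ, ∃ N0 : ℕ, ∀ N ≥ N0, D.tauN N b y = c) :
    ∃ N0 : ℕ, ∀ N ≥ N0, D.tauN N b y = D.tau b y := by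
  obtain ⟨c, hc⟩ := h
  rw [tau_eq D b y c hc]
  exact hc

end

theorem hK2 (h1 : StK1) : StK2 := by
  intro n L _ _ _ _ _ D b hb
  have hev : ∀ y : L, ∃ c : ℂ, ∃ N0 : ℕ, ∀ N ≥ N0, D.tauN N b y = c := by
    intro y
    have hy := D.span y
    induction hy using Submodule.span_induction with
    | mem y hy =>
      obtain ⟨⟨α, β⟩, rfl⟩ := hy
      by_cases hc : α.length = β.length + b.length ∧ β = α.take β.length
      · exact ⟨_, β.length, fun N hN => (h1 n L D b α β N hb hN).1 hc.1 hc.2⟩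
      · exact ⟨_, β.length, fun N hN => (h1 n L D b α β N hb hN).2 hc⟩
    | zero => exact ⟨0, 0, fun N _ => tauN_zero D N b⟩
    | add y z _ _ hy hz =>
      obtain ⟨c, N1, h1⟩ := hy
      obtain ⟨d, N2, h2⟩ := hz
      refine ⟨c + d, max N1 N2, fun N hN => ?_⟩
      rw [tauN_add, h1 N (le_trans (le_max_left _ _) hN), h2 N (le_trans (le_max_right _ _) hN)]
    | smul a y _ hy =>
      obtain ⟨c, N1, h1⟩ := hy
      exact ⟨a * c, N1, fun N hN => by rw [tauN_smul, h1 N hN]⟩
  have hspec : ∀ y : L, ∃ N0 : ℕ, ∀ N ≥ N0, D.tauN N b y = D.tau b y :=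
    fun y => tau_spec D b y (hev y)
  have hpos : ∀ α β : W n, α.length = β.length + b.length → β = α.take β.length →
      D.tau b (D.w α * star (D.w β)) = (rotc (α.drop β.length) b : ℂ) := by
    intro α β ha hb'
    exact tau_eq D b _ _ ⟨β.length, fun N hN => (h1 n L D b α β N hb hN).1 ha hb'⟩
  have hneg : ∀ α β : W n, ¬ (α.length = β.length + b.length ∧ β = α.take β.length) →
      D.tau b (D.w α * star (D.w β)) = 0 := by
    intro α β h
    exact tau_eq D b _ _ ⟨β.length, fun N hN => (h1 n L D b α β N hb hN).2 h⟩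
  have hnil : D.w ([] : W n) = 1 := rfl
  refine ⟨hspec, ?_, ?_, ?_, ?_, hpos, hneg⟩
  · intro y z
    obtain ⟨N1, h1⟩ := hspec y
    obtain ⟨N2, h2⟩ := hspec z
    refine tau_eq D b _ _ ⟨max N1 N2, fun N hN => ?_⟩
    rw [tauN_add, h1 N (le_trans (le_max_left _ _) hN), h2 N (le_trans (le_max_right _ _) hN)]
  · intro c y
    obtain ⟨N1, h1⟩ := hspec y
    exact tau_eq D b _ _ ⟨N1, fun N hN => by rw [tauN_smul, h1 N hN]⟩
  · intro a
    by_cases hab : a.length = b.length
    · have h := hpos a [] (by rw [List.length_nil, zero_add]; exact hab) (by simp)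
      rw [hnil, star_one, mul_one] at h
      rw [h]
      simp
    · have h := hneg a [] (by
        rw [List.length_nil, zero_add]
        exact fun hh => hab hh.1)
      rw [hnil, star_one, mul_one] at h
      rw [h]
      unfold rotc
      rw [if_neg hab, Nat.cast_zero]
  · intro a
    have h := hneg [] a (by
      rintro ⟨hh, _⟩
      rw [List.length_nil] at hh
      have : b.length = 0 := by omega
      exact hb (List.length_eq_zero_iff.mp this))
    rwa [hnil, one_mul] at h

end Pool.Agent.Helper82.SI
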