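import Pool.Agent.Helper99.SI.StK

/-!
# Module K3 of project SI (MP_181f94_al)
-/

set_option autoImplicit false

namespace Pool.Agent.Helper82.SI

open Pool.Agent.Helper99.SI

/-- rotation invariance of the number of rotations -/
theorem rotc_rotate_one {n : ℕ} (a b : W n) : rotc (a.rotate 1) b = rotc a b := by
  unfold rotc
  rw [List.length_rotate]
  by_cases h : a.length = b.length
  · rw [if_pos h, if_pos h]
    rw [Finset.card_filter, Finset.card_filter]
    have e1 : ∀ i : ℕ, (a.rotate 1).rotate i = a.rotate (i + 1) := by
      intro i
      rw [List.rotate_rotate, add_comm]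
    simp only [e1]
    have h1 := Finset.sum_range_succ (fun i => if a.rotate i = b then 1 else 0) b.length
    have h2 := Finset.sum_range_succ' (fun i => if a.rotate i = b then 1 else 0) b.length
    have h3 : a.rotate b.length = a.rotate 0 := by
      rw [← h, List.rotate_length, List.rotate_zero]
    rw [h3] at h1
    have := h1.symm.trans h2
    omega
  · rw [if_neg h, if_neg h]

theorem hK3 (_h1 : StA1) (h2 : StA2) (h3 : StK2) : StK3 := by
  intro n L _ _ _ _ _ D b hb
  obtain ⟨-, hadd, hsmul, -, -, hpos, hneg⟩ := h3 n L D b hb
  have hcons : ∀ (i : Fin n) (α : W n), D.w (i :: α) = D.x i * D.w α := by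
    intro i α
    simp [Sys.w, wd]
  have happ : ∀ (α : W n) (i : Fin n), D.w (α ++ [i]) = D.w α * D.x i := by
    intro α i
    simp [Sys.w, wd]
  have hnil : D.w ([] : W n) = 1 := rfl
  have hzero : D.tau b 0 = 0 := by
    have := hsmul 0 0
    rwa [zero_smul, zero_mul] at this
  have hk : b.length ≠ 0 := fun h => hb (List.length_eq_zero_iff.mp h)
  -- comparison of the values at cons words
  have hcc : ∀ (i j : Fin n) (α β : W n),
      D.tau b (D.w (i :: α) * star (D.w (j :: β))) =
        if i = j then D.tau b (D.w α * star (D.w β)) else 0 := by
    intro i j α β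
    by_cases hij : i = j
    · rw [if_pos hij]
      subst hij
      by_cases hc : α.length = β.length + b.length ∧ β = α.take β.length
      · rw [hpos α β hc.1 hc.2, hpos (i :: α) (i :: β) (by simp [hc.1]; omega)
          (by simpa using hc.2)]
        simp
      · rw [hneg α β hc, hneg (i :: α) (i :: β)]
        rintro ⟨ha, hb'⟩
        apply hc
        refine ⟨?_, ?_⟩
        · simp only [List.length_cons] at ha
          omega
        · simpa using hb'
    · rw [if_neg hij, hneg]
      rintro ⟨_, hb'⟩
      simp only [List.length_cons, List.take_succ_cons, List.cons.injEq] at hb'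
      exact hij hb'.1.symm
  -- step 1
  have hx : ∀ (i : Fin n) (y : L), D.tau b (D.x i * y) = D.tau b (y * D.x i) := by
    intro i y
    have hy := D.span y
    induction hy using Submodule.span_induction with
    | mem y hy =>
      obtain ⟨⟨α, β⟩, rfl⟩ := hy
      change D.tau b (D.x i * (D.w α * star (D.w β))) = D.tau b (D.w α * star (D.w β) * D.x i)
      rw [← mul_assoc, ← hcons]
      rcases β with _ | ⟨j, β⟩
      · rw [hnil, star_one, mul_one, mul_one, ← happ]
        have e : ∀ γ : W n, D.tau b (D.w γ) = if γ.length = b.length then (rotc γ b : ℂ) else 0 := by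
          intro γ
          by_cases hc : γ.length = b.length
          · have := hpos γ [] (by rw [List.length_nil, zero_add]; exact hc) (by simp)
            rw [hnil, star_one, mul_one] at this
            rw [this, if_pos hc]
            simp
          · have := hneg γ [] (by
              rw [List.length_nil, zero_add]; exact fun h => hc h.1)
            rw [hnil, star_one, mul_one] at this
            rw [this, if_neg hc]
        rw [e, e]
        have hr : (i :: α).rotate 1 = α ++ [i] := by simp
        have hl : (α ++ [i]).length = (i :: α).length := by simp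
        rw [hl, ← hr, rotc_rotate_one]
      · rw [hcc]
        have : D.w α * star (D.w (j :: β)) * D.x i =
            if i = j then D.w α * star (D.w β) else 0 := by
          rw [hcons, star_mul, ← mul_assoc, mul_assoc, D.orth]
          by_cases hij : i = j
          · rw [if_pos hij, if_pos hij.symm, mul_one]
          · rw [if_neg hij, if_neg (fun h => hij h.symm), mul_zero]
        rw [this]
        by_cases hij : i = j
        · rw [if_pos hij, if_pos hij]
        · rw [if_neg hij, if_neg hij, hzero]
    | zero => rw [mul_zero, zero_mul]
    | add y z _ _ hy hz => rw [mul_add, add_mul, hadd, hadd, hy, hz]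
    | smul a y _ hy => rw [mul_smul_comm, smul_mul_assoc, hsmul, hsmul, hy]
  -- step 2
  have hxs : ∀ (i : Fin n) (y : L), D.tau b (star (D.x i) * y) = D.tau b (y * star (D.x i)) := by
    intro i y
    have hy := D.span y
    induction hy using Submodule.span_induction with
    | mem y hy =>
      obtain ⟨⟨α, β⟩, rfl⟩ := hy
      change D.tau b (star (D.x i) * (D.w α * star (D.w β))) =
        D.tau b (D.w α * star (D.w β) * star (D.x i))
      have e1 : D.w α * star (D.w β) * star (D.x i) = D.w α * star (D.w (i :: β)) := by
        rw [mul_assoc, ← star_mul, ← hcons]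
      rw [e1]
      rcases α with _ | ⟨j, α⟩
      · rw [hneg [] (i :: β) (by
          rintro ⟨hh, _⟩
          simp at hh
          omega)]
        have e2 : star (D.x i) * (D.w [] * star (D.w β)) = D.w [] * star (D.w (β ++ [i])) := by
          rw [hnil, one_mul, one_mul, happ, star_mul]
        rw [e2, hneg [] (β ++ [i]) (by
          rintro ⟨hh, _⟩
          simp at hh
          omega)]
      · rw [hcc]
        have : star (D.x i) * (D.w (j :: α) * star (D.w β)) =
            if j = i then D.w α * star (D.w β) else 0 := by
          rw [hcons, ← mul_assoc, ← mul_assoc, D.orth]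
          by_cases hij : j = i
          · rw [if_pos hij, if_pos hij.symm, one_mul]
          · rw [if_neg hij, if_neg (fun h => hij h.symm), zero_mul, zero_mul]
        rw [this]
        by_cases hij : j = i
        · rw [if_pos hij, if_pos hij]
        · rw [if_neg hij, if_neg hij, hzero]
    | zero => rw [mul_zero, zero_mul]
    | add y z _ _ hy hz => rw [mul_add, add_mul, hadd, hadd, hy, hz]
    | smul a y _ hy => rw [mul_smul_comm, smul_mul_assoc, hsmul, hsmul, hy]
  -- step 3
  have hmul : ∀ u v : L, (∀ y, D.tau b (u * y) = D.tau b (y * u)) →
      (∀ y, D.tau b (v * y) = D.tau b (y * v)) →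
      ∀ y, D.tau b ((u * v) * y) = D.tau b (y * (u * v)) := by
    intro u v hu hv y
    rw [mul_assoc, hu, mul_assoc, hv, mul_assoc]
  have hw : ∀ (α : W n) (y : L), D.tau b (D.w α * y) = D.tau b (y * D.w α) := by
    intro α
    induction α with
    | nil => intro y; rw [hnil, one_mul, mul_one]
    | cons i α ih =>
      rw [hcons]
      exact hmul _ _ (hx i) ih
  have hws : ∀ (α : W n) (y : L), D.tau b (star (D.w α) * y) = D.tau b (y * star (D.w α)) := by
    intro α
    induction α with
    | nil => intro y; rw [hnil, star_one, one_mul, mul_one]
    | cons i α ih =>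
      rw [hcons, star_mul]
      exact hmul _ _ ih (hxs i)
  constructor
  · intro y z
    have hy := D.span y
    induction hy using Submodule.span_induction with
    | mem y hy =>
      obtain ⟨⟨α, β⟩, rfl⟩ := hy
      exact hmul _ _ (hw α) (hws β) z
    | zero => rw [mul_zero, zero_mul]
    | add y y' _ _ hy hz => rw [mul_add, add_mul, hadd, hadd, hy, hz]
    | smul a y _ hy => rw [mul_smul_comm, smul_mul_assoc, hsmul, hsmul, hy]
  · intro l y
    have hy := D.span y
    induction hy using Submodule.span_induction with
    | mem y hy =>
      obtain ⟨⟨α, β⟩, rfl⟩ := hy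
      change D.tau b (D.g.p l (D.w α * star (D.w β))) =
        if l = b.length then D.tau b (D.w α * star (D.w β)) else 0
      rw [h2 n L D l α β]
      by_cases hc : α.length = β.length + b.length ∧ β = α.take β.length
      · by_cases hl : l = b.length
        · rw [if_pos hl, if_pos]
          rw [hl, hc.1]
          push_cast
          ring
        · rw [if_neg hl, if_neg, hzero]
          intro h
          apply hl
          rw [h, hc.1]
          push_cast
          ring
      · rw [hneg α β hc]
        by_cases hl : l = (α.length : ℤ) - β.length
        · rw [if_pos hl, hneg α β hc]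
          simp
        · rw [if_neg hl, hzero]
          simp
    | zero => rw [map_zero, hzero]; simp
    | add y z _ _ hy hz =>
      rw [map_add, hadd, hadd, hy, hz]
      by_cases hl : l = b.length
      · rw [if_pos hl, if_pos hl, if_pos hl]
      · rw [if_neg hl, if_neg hl, if_neg hl, add_zero]
    | smul a y _ hy =>
      rw [map_smul, hsmul, hsmul, hy]
      by_cases hl : l = b.length
      · rw [if_pos hl, if_pos hl]
      · rw [if_neg hl, if_neg hl, mul_zero]

end Pool.Agent.Helper82.SI
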